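import Pool.Agent.H61.AR.Targets
import Pool.Agent.H60.CM.Basic

/-!
# The area of surfaces of constant mean curvature spanning a circle: assembly
-/

set_option autoImplicit false

open Set Function MeasureTheory Filter Topology
open scoped Manifold ContDiff Matrix

namespace Pool.Agent.H61.AR

open Pool.Agent.H60.CM

theorem c1_mem {r : ℝ} : (![r, 0, 0] : V3) ∈ circ r := by
  refine ⟨rfl, ?_⟩
  simp [Matrix.vec3_dotProduct]
  ring

theorem ar_nonneg (D : Dat) : 0 ≤ ar D := ENNReal.toReal_nonneg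

/-- the first inequality, in the form with the boundary term -/
theorem first (h1 : T_BPA) (h2 : T_SCO) (h3 : T_INB) (D : Dat) :
    ∃ (γ : ℝ → D.S) (s : ℝ), Bp D γ ∧ GS D γ s ∧
      2 * Real.pi ≤ D.H ^ 2 * ar D + s * ∫ θ in (0 : ℝ)..(2 * Real.pi), nz D γ θ := by
  obtain ⟨γ, hγ⟩ := h1 D
  obtain ⟨s, hs⟩ := h2 D γ hγ
  refine ⟨γ, s, hγ, hs, ?_⟩
  have h := h3 D γ s hγ hs ![D.r, 0, 0] ∅ c1_mem (by simp) (by simp)
  simpa using h

theorem pf_CAP (h1 : T_BPA) (h2 : T_SCO) (h3 : T_INB) (h4 : T_SNZ) (h5 : T_EQL) (h6 : T_EQF)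
    (h7 : T_UMC) (h8 : T_SML) (h9 : T_USP) : T_CAP := by
  intro D hH hA
  obtain ⟨γ, s, hγ, hs, hin⟩ := first h1 h2 h3 D
  have hsn := h4 D γ s hγ hs
  have hle : D.H ^ 2 * ar D + s * ∫ θ in (0 : ℝ)..(2 * Real.pi), nz D γ θ ≤ 2 * Real.pi := by
    nlinarith
  have hz := h7 D fun c hc p => h6 D c (h5 D γ s hγ hs hle c hc) p
  obtain ⟨z, hz1, hz2⟩ := hz
  have habs : |z| = Real.sqrt (1 - D.r ^ 2 * D.H ^ 2) := by
    rw [← hz1, Real.sqrt_sq_eq_abs]
  have hN : ∀ p, D.N p 0 = -(D.H * D.x p 0) ∧ D.N p 1 = -(D.H * D.x p 1) ∧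
      D.N p 2 = z - D.H * D.x p 2 := by
    intro p
    have h := hz2 p
    have e0 := congrFun h 0
    have e1 := congrFun h 1
    have e2 := congrFun h 2
    simp only [Pi.add_apply, Pi.smul_apply, smul_eq_mul, Matrix.cons_val_zero,
      Matrix.cons_val_one, Matrix.cons_val] at e0 e1 e2
    exact ⟨by linarith, by linarith, by linarith⟩
  have hsph : ∀ p, D.x p ∈ Ysp (z / D.H) (1 / |D.H|) := by
    intro p
    obtain ⟨e0, e1, e2⟩ := hN p
    have hu := D.cmc.unit p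
    rw [Matrix.vec3_dotProduct, e0, e1, e2] at hu
    show D.x p 0 ^ 2 + D.x p 1 ^ 2 + (D.x p 2 - z / D.H) ^ 2 = (1 / |D.H|) ^ 2
    rw [div_pow, one_pow, sq_abs]
    field_simp
    linarith
  have hpos : (0 : ℝ) < 1 / |D.H| := by positivity
  obtain ⟨hinj, hr⟩ := h9 D (z / D.H) (1 / |D.H|) hpos hsph
  refine ⟨hinj, ?_⟩
  have key : ∀ σ : ℝ, (σ = 1 ∨ σ = -1) → range D.x = Kca (z / D.H) (1 / |D.H|) σ →
      ∃ c σ : ℝ, (σ = 1 ∨ σ = -1) ∧ σ * c ≤ 0 ∧ range D.x = Kca c (1 / |D.H|) σ := by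
    intro σ hσ hrg
    refine ⟨z / D.H, σ, hσ, ?_, hrg⟩
    refine h8 D γ s z hγ hs hH hz1 hz2 (by rw [habs]; exact hA) hin σ hσ ?_
    intro p
    have h : D.x p ∈ Kca (z / D.H) (1 / |D.H|) σ := hrg ▸ mem_range_self p
    exact h.2
  rcases hr with hr | hr
  · exact key 1 (Or.inl rfl) hr
  · exact key (-1) (Or.inr rfl) hr

/-- the case `H = 0` -/
theorem pf_CP0 (h1 : T_BPA) (h2 : T_SCO) (h4 : T_SNZ) (h5 : T_EQL) (h6 : T_EQF)
    (h7 : T_UMC) (h9 : T_UPL) : ∀ D : Dat, D.H = 0 → Injective D.x ∧ range D.x = Kdi D.r := by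
  intro D hH
  obtain ⟨γ, hγ⟩ := h1 D
  obtain ⟨s, hs⟩ := h2 D γ hγ
  have hsn := h4 D γ s hγ hs
  have hle : D.H ^ 2 * ar D + s * ∫ θ in (0 : ℝ)..(2 * Real.pi), nz D γ θ ≤ 2 * Real.pi := by
    rw [hH] at hsn ⊢
    simpa using hsn
  have hg : ∀ c ∈ circ D.r, ∀ p, gz D c p = 0 :=
    fun c hc p => h6 D c (h5 D γ s hγ hs hle c hc) p
  obtain ⟨z, hz1, hz2⟩ := h7 D hg
  refine h9 D fun p => ?_
  have h := hz2 p
  rw [hH, zero_smul, add_zero] at h
  rw [hH] at hz1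
  have hz : z ≠ 0 := by
    intro h0
    rw [h0] at hz1
    norm_num at hz1
  have h2 := hg ![D.r, 0, 0] c1_mem p
  unfold gz at h2
  rw [h, hH, zero_mul, add_zero, Matrix.vec3_dotProduct] at h2
  simp at h2
  exact h2.resolve_right hz

theorem pf_PRE (h1 : T_BPA) (h2 : T_SCO) (h3 : T_INB) (h4 : T_SNZ) (h5 : T_INC) : T_PRE := by
  classical
  intro D y F hF
  by_cases hy : y ∈ circ D.r
  · obtain ⟨γ, hγ⟩ := h1 D
    obtain ⟨s, hs⟩ := h2 D γ hγ
    have hsn := h4 D γ s hγ hs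
    have hle1 : Real.sqrt (1 - D.r ^ 2 * D.H ^ 2) ≤ 1 := by
      rw [Real.sqrt_le_one]
      nlinarith [sq_nonneg (D.r * D.H)]
    have hin := h3 D γ s hγ hs y (F.filter fun p => p ∈ D.int) hy
      (fun p hp => hF p (Finset.mem_filter.1 hp).1) (fun p hp => (Finset.mem_filter.1 hp).2)
    have hcard : F.card ≤ (F.filter fun p => p ∈ D.int).card + 1 := by
      have h6 := Finset.card_filter_add_card_filter_not (s := F) (fun p => p ∈ D.int)
      have h7 : (F.filter fun p => ¬ p ∈ D.int).card ≤ 1 := by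
        rw [Finset.card_le_one]
        intro p hp q hq
        have hp' := Finset.mem_filter.1 hp
        have hq' := Finset.mem_filter.1 hq
        exact D.cmc.circle.injOn (D.not_int.1 hp'.2) (D.not_int.1 hq'.2)
          ((hF p hp'.1).trans (hF q hq'.1).symm)
      omega
    have hcard' : (F.card : ℝ) ≤ ((F.filter fun p => p ∈ D.int).card : ℝ) + 1 := by
      exact_mod_cast hcard
    have hpi := Real.pi_pos
    nlinarith
  · refine h5 D y F hy hF fun p hp => ?_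
    by_contra hcon
    exact hy (hF p hp ▸ D.cmc.circle.mapsTo (D.not_int.1 hcon))

theorem pf_FIN (h1 : T_BPA) (h2 : T_SCO) (h3 : T_INB) (h4 : T_SNZ) (h5 : T_CAP) (h6 : T_PRE) :
    T_FIN := by
  intro D
  refine ⟨?_, h5 D, h6 D, ?_⟩
  · obtain ⟨γ, s, hγ, hs, hin⟩ := first h1 h2 h3 D
    have hsn := h4 D γ s hγ hs
    nlinarith
  · intro y hy F hF hFi
    obtain ⟨γ, hγ⟩ := h1 D
    obtain ⟨s, hs⟩ := h2 D γ hγ
    have hsn := h4 D γ s hγ hs
    have hin := h3 D γ s hγ hs y F hy hF hFi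
    nlinarith

end Pool.Agent.H61.AR
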