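import Pool.Agent.H61.AR.Targets

/-!
# The length of the mean of a unit vector
-/

set_option autoImplicit false

open Set Function MeasureTheory Filter Topology

namespace Pool.Agent.H61.AR

theorem pf_CSI : T_CSI := by
  intro u v R hu hv huv hR
  have hpi := Real.pi_pos
  set P : ℝ := ∫ θ in (0 : ℝ)..(2 * Real.pi), u θ with hP
  set Q : ℝ := ∫ θ in (0 : ℝ)..(2 * Real.pi), v θ with hQ
  set L : ℝ := Real.sqrt (P ^ 2 + Q ^ 2) with hL
  have hL0 : 0 ≤ L := Real.sqrt_nonneg _
  have hL2 : L ^ 2 = P ^ 2 + Q ^ 2 := Real.sq_sqrt (by positivity)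
  have h1 : ∀ θ, P * u θ + Q * v θ ≤ L := by
    intro θ
    refine abs_le_of_sq_le_sq' ?_ hL0 |>.2
    rw [hL2]
    nlinarith [sq_nonneg (P * v θ - Q * u θ), huv θ]
  have h2 : P * P + Q * Q ≤ 2 * Real.pi * L := by
    have h3 : ∫ θ in (0 : ℝ)..(2 * Real.pi), (P * u θ + Q * v θ) ≤
        ∫ θ in (0 : ℝ)..(2 * Real.pi), L := by
      refine intervalIntegral.integral_mono_on (by positivity) ?_ ?_ fun θ _ => h1 θ
      · exact ((continuous_const.mul hu).add (continuous_const.mul hv)).intervalIntegrable _ _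
      · exact continuous_const.intervalIntegrable _ _
    have i1 : IntervalIntegrable (fun θ => P * u θ) volume 0 (2 * Real.pi) :=
      (continuous_const.mul hu).intervalIntegrable _ _
    have i2 : IntervalIntegrable (fun θ => Q * v θ) volume 0 (2 * Real.pi) :=
      (continuous_const.mul hv).intervalIntegrable _ _
    rw [intervalIntegral.integral_add i1 i2, intervalIntegral.integral_const_mul,
      intervalIntegral.integral_const_mul, intervalIntegral.integral_const, sub_zero,
      smul_eq_mul] at h3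
    exact h3
  have h3 : L ≤ 2 * Real.pi := by
    by_contra hcon
    push Not at hcon
    nlinarith
  have h4 : P ^ 2 + Q ^ 2 ≤ (2 * Real.pi) ^ 2 := by
    rw [← hL2]
    exact pow_le_pow_left₀ hL0 h3 2
  have h5 : Q ^ 2 ≤ (2 * Real.pi) ^ 2 * (1 - R ^ 2) := by
    rw [hR] at h4
    nlinarith
  have h6 : |Q| ≤ Real.sqrt ((2 * Real.pi) ^ 2 * (1 - R ^ 2)) := Real.abs_le_sqrt h5
  rwa [Real.sqrt_mul (by positivity), Real.sqrt_sq (by positivity)] at h6

end Pool.Agent.H61.AR
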