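import Pool.Agent.H61.AR.Targets

set_option autoImplicit false

open Set Function MeasureTheory Filter Topology

namespace Pool.Agent.H61.AR

theorem pf_FOU : T_FOU := by
  intro σ hσ hper h
  have : Fact ((0 : ℝ) < 2 * Real.pi) := ⟨by positivity⟩
  have hp : Function.Periodic (fun θ => (σ θ : ℂ)) (2 * Real.pi) := by
    intro θ
    simp only [hper θ]
  let f : C(AddCircle (2 * Real.pi), ℂ) :=
    ⟨hp.lift, by
      refine continuous_coinduced_dom.2 ?_
      exact Complex.continuous_ofReal.comp hσ⟩
  have hf : ∀ θ : ℝ, f (θ : AddCircle (2 * Real.pi)) = (σ θ : ℂ) := fun θ => rfl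
  have hc : ∀ n : ℤ, n ≠ 0 → fourierCoeff f n = 0 := by
    intro n hn
    rw [fourierCoeff_eq_intervalIntegral _ _ 0, zero_add]
    have h1 : ∀ θ : ℝ, fourier (-n) (θ : AddCircle (2 * Real.pi)) • f (θ : AddCircle (2 * Real.pi)) =
        ((σ θ * Real.cos (n * θ) : ℝ) : ℂ) - Complex.I * ((σ θ * Real.sin (n * θ) : ℝ) : ℂ) := by
      intro θ
      rw [hf, fourier_coe_apply]
      have h2 : 2 * (Real.pi : ℂ) * Complex.I * ((-n : ℤ) : ℂ) * (θ : ℂ) / ((2 * Real.pi : ℝ) : ℂ) =
          ((-(n * θ) : ℝ) : ℂ) * Complex.I := by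
        have : (Real.pi : ℂ) ≠ 0 := by exact_mod_cast Real.pi_ne_zero
        push_cast
        field_simp
      rw [h2, Complex.exp_mul_I, ← Complex.ofReal_cos, ← Complex.ofReal_sin, Real.cos_neg,
        Real.sin_neg, smul_eq_mul]
      push_cast
      ring
    simp only [h1]
    have hz : ∫ θ in (0 : ℝ)..(2 * Real.pi), σ θ * Real.cos (n * θ) = 0 ∧
        ∫ θ in (0 : ℝ)..(2 * Real.pi), σ θ * Real.sin (n * θ) = 0 := by
      rcases lt_trichotomy n 0 with hn0 | hn0 | hn0
      · obtain ⟨m, hm⟩ := Int.eq_ofNat_of_zero_le (a := -n) (by omega)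
        have hm0 : 0 < m := by omega
        obtain ⟨a, b⟩ := h m hm0
        have hnm : (n : ℝ) = -(m : ℝ) := by
          have : n = -(m : ℤ) := by omega
          rw [this]
          push_cast
          ring
        rw [hnm]
        constructor
        · simpa [neg_mul, Real.cos_neg] using a
        · have : (fun θ => σ θ * Real.sin (-(m : ℝ) * θ)) = fun θ => -(σ θ * Real.sin (m * θ)) := by
            funext θ
            rw [neg_mul, Real.sin_neg]
            ring
          rw [this, intervalIntegral.integral_neg, b, neg_zero]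
      · exact absurd hn0 hn
      · obtain ⟨m, hm⟩ := Int.eq_ofNat_of_zero_le (a := n) (by omega)
        have hm0 : 0 < m := by omega
        obtain ⟨a, b⟩ := h m hm0
        have hnm : (n : ℝ) = (m : ℝ) := by
          rw [hm]
          push_cast
          rfl
        rw [hnm]
        exact ⟨a, b⟩
    have i1 : IntervalIntegrable (fun θ : ℝ => ((σ θ * Real.cos (n * θ) : ℝ) : ℂ)) volume 0
        (2 * Real.pi) := by
      refine Continuous.intervalIntegrable ?_ _ _
      fun_prop
    have i2 : IntervalIntegrable (fun θ : ℝ => Complex.I * ((σ θ * Real.sin (n * θ) : ℝ) : ℂ)) volume 0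
        (2 * Real.pi) := by
      refine Continuous.intervalIntegrable ?_ _ _
      fun_prop
    rw [intervalIntegral.integral_sub i1 i2, intervalIntegral.integral_const_mul,
      intervalIntegral.integral_ofReal, intervalIntegral.integral_ofReal, hz.1, hz.2]
    simp
  have hs : Summable (fourierCoeff f) := by
    refine summable_of_ne_finset_zero (s := {0}) ?_
    intro n hn
    exact hc n (by simpa using hn)
  refine ⟨(fourierCoeff f 0).re, fun θ => ?_⟩
  have h3 := has_pointwise_sum_fourier_series_of_summable hs (θ : AddCircle (2 * Real.pi))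
  have h4 : HasSum (fun i => fourierCoeff f i • fourier i (θ : AddCircle (2 * Real.pi)))
      (fourierCoeff f 0 • fourier 0 (θ : AddCircle (2 * Real.pi))) := by
    refine hasSum_single 0 ?_
    intro n hn
    rw [hc n hn, zero_smul]
  have h5 := h3.unique h4
  rw [hf] at h5
  have h6 := congrArg Complex.re h5
  simpa using h6

end Pool.Agent.H61.AR
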