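import Pool.Agent.H1.ARQ.DSM
import Pool.Agent.H11.AR.PSN
import Pool.Agent.H13.ARQ.EQL
import Pool.Agent.H14.AR.CHV
import Pool.Agent.H14.AR.LST
import Pool.Agent.H17.AR.FLU
import Pool.Agent.H17.AR.LCB
import Pool.Agent.H17.AR.SML
import Pool.Agent.H20.AR.DBD
import Pool.Agent.H36.AR.DIN
import Pool.Agent.H36.AR.EQF
import Pool.Agent.H36.AR.SCO
import Pool.Agent.H4.AR.BCH
import Pool.Agent.H4.AR.IEP
import Pool.Agent.H40.AR.AL2
import Pool.Agent.H41.AR.INC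
import Pool.Agent.H46.AR.LB2
import Pool.Agent.H5.AR.INB
import Pool.Agent.H51.AR.NRM
import Pool.Agent.H61.AR.CSI
import Pool.Agent.H61.AR.FOU
import Pool.Agent.H67.AR.BLM
import Pool.Agent.H67.AR.PI
import Pool.Agent.H67.AR.PS
import Pool.Agent.H68.ARQ.AL1
import Pool.Agent.H68.ARQ.CPB
import Pool.Agent.H70.AR.BPA
import Pool.Agent.H76.AR.LB1
import Pool.Agent.H79.ARQ.DLM
import Pool.Agent.H89.AR.POU
import Pool.Agent.H97.AR.SNZ
import Pool.Agent.H60.CM.All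
import Pool.Agent.H61.AR.Asm

/-!
# The area of surfaces of constant mean curvature spanning a circle: composition
-/

set_option autoImplicit false

namespace Pool.Agent.H61.AR.All

open Pool.Agent.H61.AR

theorem tlst : T_LST := Pool.Agent.H14.AR.pf_LST 
theorem tchv : T_CHV := Pool.Agent.H14.AR.pf_CHV 
theorem tfou : T_FOU := Pool.Agent.H61.AR.pf_FOU 
theorem tcsi : T_CSI := Pool.Agent.H61.AR.pf_CSI 
theorem tpsn : T_PSN := Pool.Agent.H11.AR.pf_PSN 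
theorem tlcb : T_LCB := Pool.Agent.H17.AR.pf_LCB tpsn
theorem tblm : T_BLM := Pool.Agent.H67.AR.pf_BLM 
theorem tpi : T_PI := Pool.Agent.H67.AR.pf_PI 
theorem tps : T_PS := Pool.Agent.H67.AR.pf_PS tpi
theorem tdlm : T_DLM := Pool.Agent.H79.ARQ.pf_DLM tps
theorem tal1 : T_AL1 := Pool.Agent.H68.ARQ.pf_AL1 
theorem tal2 : T_AL2 := Pool.Agent.H40.AR.pf_AL2 
theorem tbpa : T_BPA := Pool.Agent.H70.AR.pf_BPA 
theorem tbch : T_BCH := Pool.Agent.H4.AR.pf_BCH 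
theorem tcpb : T_CPB := Pool.Agent.H68.ARQ.pf_CPB 
theorem tlb1 : T_LB1 := Pool.Agent.H76.AR.pf_LB1 Pool.Agent.H60.CM.All.are Pool.Agent.H60.CM.All.pgr Pool.Agent.H60.CM.All.pdf Pool.Agent.H60.CM.All.con
theorem tlb2 : T_LB2 := Pool.Agent.H46.AR.pf_LB2 tlb1 tlst tchv tcpb
theorem tpou : T_POU := Pool.Agent.H89.AR.pf_POU tlb2 tbch Pool.Agent.H60.CM.All.pbr Pool.Agent.H60.CM.All.con
theorem tsco : T_SCO := Pool.Agent.H36.AR.pf_SCO tpou tfou
theorem tnrm : T_NRM := Pool.Agent.H51.AR.pf_NRM Pool.Agent.H60.CM.All.bnz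
theorem tiep : T_IEP := Pool.Agent.H4.AR.pf_IEP Pool.Agent.H60.CM.All.sym tal1 tnrm Pool.Agent.H60.CM.All.con
theorem tflu : T_FLU := Pool.Agent.H17.AR.pf_FLU Pool.Agent.H60.CM.All.sym tal2 Pool.Agent.H60.CM.All.con
theorem tsnz : T_SNZ := Pool.Agent.H97.AR.pf_SNZ tflu tnrm tcsi
theorem tdin : T_DIN := Pool.Agent.H36.AR.pf_DIN Pool.Agent.H60.CM.All.pat Pool.Agent.H60.CM.All.are tdlm Pool.Agent.H60.CM.All.pdf
theorem tdbd : T_DBD := Pool.Agent.H20.AR.pf_DBD tbch Pool.Agent.H60.CM.All.are tdlm Pool.Agent.H60.CM.All.pdf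
theorem tdsm : T_DSM := Pool.Agent.H1.ARQ.pf_DSM tdin tdbd
theorem tinc : T_INC := Pool.Agent.H41.AR.pf_INC tbpa tsco tiep tdsm tnrm tlcb
theorem tinb : T_INB := Pool.Agent.H5.AR.pf_INB tiep tdsm tnrm tblm
theorem teql : T_EQL := Pool.Agent.H13.ARQ.pf_EQL tiep tdsm tnrm tblm
theorem teqf : T_EQF := Pool.Agent.H36.AR.pf_EQF Pool.Agent.H60.CM.All.pos Pool.Agent.H60.CM.All.dni
theorem tumc : T_UMC := Pool.Agent.H97.AR.pf_UMC 
theorem tsml : T_SML := Pool.Agent.H17.AR.pf_SML tflu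

theorem cap : T_CAP := pf_CAP tbpa tsco tinb tsnz teql teqf tumc tsml Pool.Agent.H60.CM.All.usp
theorem pre : T_PRE := pf_PRE tbpa tsco tinb tsnz tinc
theorem fin : T_FIN := pf_FIN tbpa tsco tinb tsnz cap pre

theorem cp0 : ∀ D : Pool.Agent.H60.CM.Dat, D.H = 0 →
    Function.Injective D.x ∧ Set.range D.x = Pool.Agent.H60.CM.Kdi D.r :=
  pf_CP0 tbpa tsco tsnz teql teqf tumc Pool.Agent.H60.CM.All.upl

end Pool.Agent.H61.AR.All
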