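import Pool.Agent.H60.CM.Targets

/-!
# The area of surfaces of constant mean curvature spanning a circle: definitions
-/

set_option autoImplicit false

open Set Function MeasureTheory Filter Topology
open scoped Manifold ContDiff Matrix

namespace Pool.Agent.H61.AR

open Pool.Agent.H60.CM

/-- the parametrization of the circle -/
noncomputable def cpt (r θ : ℝ) : V3 := ![r * Real.cos θ, r * Real.sin θ, 0]

/-- the square of the distance -/
def sqd (y c : V3) : ℝ := (y - c) ⬝ᵥ (y - c)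

/-- the parametrization of the boundary -/
structure Bp (D : Dat) (γ : ℝ → D.S) : Prop where
  cont : Continuous γ
  mem : ∀ θ, γ θ ∈ D.bd
  eq : ∀ θ, D.x (γ θ) = cpt D.r θ
  per : ∀ θ, γ (θ + 2 * Real.pi) = γ θ
  sur : ∀ p ∈ D.bd, ∃ θ, γ θ = p

/-! ### half boxes in the plane -/

/-- the half plane -/
def Hp : Set E2 := {y | 0 ≤ y 0}

/-- the half box with its edge -/
def Qb (a : ℝ) : Set E2 := {y | 0 ≤ y 0 ∧ y 0 < a ∧ |y 1| < a}

/-- the open half box -/
def Qi (a : ℝ) : Set E2 := {y | 0 < y 0 ∧ y 0 < a ∧ |y 1| < a}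

/-- the open box -/
def Bx (a : ℝ) : Set E2 := {y | |y 0| < a ∧ |y 1| < a}

/-- the points of the edge -/
noncomputable def bpt (t : ℝ) : E2 := t • ee 1

/-- the partial derivatives up to the edge -/
noncomputable def pw {F : Type} [NormedAddCommGroup F] [NormedSpace ℝ F] (f : E2 → F) (y : E2)
    (i : Fin 2) : F := fderivWithin ℝ f Hp y (ee i)

/-- parametrizations of open pieces of the surface by half boxes -/
structure Bch (D : Dat) (a : ℝ) (ψ : E2 → D.S) : Prop where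
  pos : 0 < a
  inj : InjOn ψ (Qb a)
  im : ∀ G : Set E2, IsOpen G → IsOpen (ψ '' (Qb a ∩ G))
  bd : ∀ y ∈ Qb a, y 0 = 0 → ψ y ∈ D.bd
  int : D.Pch (Qi a) ψ
  cont : ContinuousOn ψ (Qb a)
  smooth : ∀ (F : Type) [NormedAddCommGroup F] [NormedSpace ℝ F] (f : D.S → F), D.Sm f →
    ContDiffOn ℝ ∞ (f ∘ ψ) (Qb a)
  imm : ∀ y ∈ Qb a, pw (D.x ∘ ψ) y 0 ⨯₃ pw (D.x ∘ ψ) y 1 ≠ 0

/-! ### the surface -/

/-- Stokes' formula with the orientation `s` -/
def GS (D : Dat) (γ : ℝ → D.S) (s : ℝ) : Prop :=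
  |s| ≤ 1 ∧ ∀ (f : D.S → ℝ) (B : V3 → ℝ), D.Sm f → ContDiff ℝ ∞ B →
    ∫ p in D.int, br D.x D.N f (fun q => B (D.x q)) p ∂D.μ =
      s * ∫ θ in (0 : ℝ)..(2 * Real.pi), f (γ θ) * deriv (fun τ => B (cpt D.r τ)) θ

/-- the area of the interior -/
noncomputable def ar (D : Dat) : ℝ := (D.μ D.int).toReal

/-- the function `1 / (|x - c|² + ε²)` -/
noncomputable def ph (D : Dat) (c : V3) (ε : ℝ) (p : D.S) : ℝ := 1 / (sqd (D.x p) c + ε ^ 2)

/-- the function `⟨x - c, N⟩ / (|x - c|² + ε²) + H / 2` -/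
noncomputable def fe (D : Dat) (c : V3) (ε : ℝ) (p : D.S) : ℝ :=
  ph D c ε p * ((D.x p - c) ⬝ᵥ D.N p) + D.H / 2

/-- the horizontal component of the normal on the boundary -/
noncomputable def nr (D : Dat) (γ : ℝ → D.S) (θ : ℝ) : ℝ :=
  D.N (γ θ) 0 * Real.cos θ + D.N (γ θ) 1 * Real.sin θ

/-- the vertical component of the normal on the boundary -/
def nz (D : Dat) (γ : ℝ → D.S) (θ : ℝ) : ℝ := D.N (γ θ) 2

/-- the conormal on the boundary -/
noncomputable def cf (D : Dat) (γ : ℝ → D.S) (θ : ℝ) : V3 :=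
  ![nz D γ θ * Real.cos θ, nz D γ θ * Real.sin θ, -nr D γ θ]

/-- the boundary term -/
noncomputable def bt (D : Dat) (γ : ℝ → D.S) (c : V3) (ε θ : ℝ) : ℝ :=
  D.r * ((cpt D.r θ - c) ⬝ᵥ cf D γ θ) / (sqd (cpt D.r θ) c + ε ^ 2)

/-- the function which vanishes on planes and spheres through `c` -/
noncomputable def gz (D : Dat) (c : V3) (p : D.S) : ℝ :=
  2 * ((D.x p - c) ⬝ᵥ D.N p) + D.H * sqd (D.x p) c

end Pool.Agent.H61.AR
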