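import Pool.Agent.H61.AR.Defs

/-!
# The area of surfaces of constant mean curvature spanning a circle: targets
-/

set_option autoImplicit false

open Set Function MeasureTheory Filter Topology
open scoped Manifold ContDiff Matrix

namespace Pool.Agent.H61.AR

open Pool.Agent.H60.CM

/-! ### analysis in one and two variables -/

/-- (LST) Stokes' formula on a half box. -/
def T_LST : Prop :=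
  ∀ (a a' : ℝ) (g b : E2 → ℝ), 0 < a' → a' < a → ContDiffOn ℝ ∞ g (Qb a) →
    ContDiffOn ℝ ∞ b (Qb a) → (∀ y ∈ Qb a, a' < y 0 ∨ a' < |y 1| → g y = 0) →
    ∫ y in Qi a, (pd g y 0 * pd b y 1 - pd g y 1 * pd b y 0) =
      -∫ t in (-a)..a, g (bpt t) * deriv (fun τ => b (bpt τ)) t

/-- (CHV) an arc of the circle as a parameter. -/
def T_CHV : Prop :=
  ∀ (r a θ₀ : ℝ) (X : ℝ → V3), 0 < r → 0 < a → ContDiffOn ℝ ∞ X (Ioo (-a) a) →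
    (∀ t ∈ Ioo (-a) a, X t ∈ circ r ∧ 0 < X t ⬝ᵥ cpt r θ₀) →
    (∀ t ∈ Ioo (-a) a, deriv X t ≠ 0) →
    ∃ k : ℝ, (k = 1 ∨ k = -1) ∧ ∀ (u h : ℝ → ℝ) (B : V3 → ℝ), Continuous u →
      (∀ θ, u (θ + 2 * Real.pi) = u θ) → ContDiff ℝ ∞ B →
      (∀ t ∈ Ioo (-a) a, ∀ θ, X t = cpt r θ → h t = u θ) →
      (∀ θ, (∀ t ∈ Ioo (-a) a, X t ≠ cpt r θ) → u θ = 0) →
      ∫ t in (-a)..a, h t * deriv (fun τ => B (X τ)) t =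
        k * ∫ θ in (0 : ℝ)..(2 * Real.pi), u θ * deriv (fun τ => B (cpt r τ)) θ

/-- (FOU) Fourier coefficients. -/
def T_FOU : Prop :=
  ∀ σ : ℝ → ℝ, Continuous σ → (∀ θ, σ (θ + 2 * Real.pi) = σ θ) →
    (∀ n : ℕ, 0 < n → ∫ θ in (0 : ℝ)..(2 * Real.pi), σ θ * Real.cos (n * θ) = 0 ∧
      ∫ θ in (0 : ℝ)..(2 * Real.pi), σ θ * Real.sin (n * θ) = 0) →
    ∃ s : ℝ, ∀ θ, σ θ = s

/-- (CSI) the length of the mean of a unit vector. -/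
def T_CSI : Prop :=
  ∀ (u v : ℝ → ℝ) (R : ℝ), Continuous u → Continuous v → (∀ θ, u θ ^ 2 + v θ ^ 2 = 1) →
    ∫ θ in (0 : ℝ)..(2 * Real.pi), u θ = -(2 * Real.pi * R) →
    |∫ θ in (0 : ℝ)..(2 * Real.pi), v θ| ≤ 2 * Real.pi * Real.sqrt (1 - R ^ 2)

/-- (PSN) the Poisson integral. -/
def T_PSN : Prop :=
  ∀ a b₁ b₂ : ℝ, 0 < a → b₁ ^ 2 + b₂ ^ 2 < a ^ 2 →
    ∫ θ in (0 : ℝ)..(2 * Real.pi), 1 / (a - b₁ * Real.cos θ - b₂ * Real.sin θ) =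
      2 * Real.pi / Real.sqrt (a ^ 2 - b₁ ^ 2 - b₂ ^ 2)

/-- (LCB) the length of the projection of the circle from the point `c` is at most `2 π`. -/
def T_LCB : Prop :=
  ∀ (r : ℝ) (c : V3) (ε : ℝ) (u v : ℝ → ℝ), 0 < r → c ∉ circ r → 0 < ε → Continuous u →
    Continuous v → (∀ θ, u θ ^ 2 + v θ ^ 2 = 1) →
    |∫ θ in (0 : ℝ)..(2 * Real.pi),
      r * ((cpt r θ - c) ⬝ᵥ ![v θ * Real.cos θ, v θ * Real.sin θ, -u θ]) /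
        (sqd (cpt r θ) c + ε ^ 2)| ≤ 2 * Real.pi

/-- (BLM) the boundary term at a point of the circle. -/
def T_BLM : Prop :=
  ∀ (r : ℝ) (c : V3) (u v : ℝ → ℝ), 0 < r → c ∈ circ r → Continuous u → Continuous v →
    Tendsto (fun ε : ℝ => ∫ θ in (0 : ℝ)..(2 * Real.pi),
      r * ((cpt r θ - c) ⬝ᵥ ![v θ * Real.cos θ, v θ * Real.sin θ, -u θ]) /
        (sqd (cpt r θ) c + ε ^ 2)) (𝓝[>] 0)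
      (𝓝 ((∫ θ in (0 : ℝ)..(2 * Real.pi), v θ) / 2))

/-- (PI) an integral over the plane. -/
def T_PI : Prop :=
  ∀ L₀ L₁ : V3, L₀ ⨯₃ L₁ ≠ 0 →
    Integrable (fun y : E2 => 1 / ((y 0 • L₀ + y 1 • L₁) ⬝ᵥ (y 0 • L₀ + y 1 • L₁) + 1) ^ 2) ∧
    ∫ y : E2, 1 / ((y 0 • L₀ + y 1 • L₁) ⬝ᵥ (y 0 • L₀ + y 1 • L₁) + 1) ^ 2 =
      Real.pi / Real.sqrt ((L₀ ⨯₃ L₁) ⬝ᵥ (L₀ ⨯₃ L₁)) ∧
    ∫ y in {y : E2 | 0 < y 0}, 1 / ((y 0 • L₀ + y 1 • L₁) ⬝ᵥ (y 0 • L₀ + y 1 • L₁) + 1) ^ 2 =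
      Real.pi / 2 / Real.sqrt ((L₀ ⨯₃ L₁) ⬝ᵥ (L₀ ⨯₃ L₁))

/-- (PS) the same with a small parameter. -/
def T_PS : Prop :=
  ∀ (L₀ L₁ : V3) (ρ m : ℝ), L₀ ⨯₃ L₁ ≠ 0 → 0 < ρ → 0 < m →
    Tendsto (fun ε : ℝ => ∫ y in Bx ρ,
      ε ^ 2 / (m * ((y 0 • L₀ + y 1 • L₁) ⬝ᵥ (y 0 • L₀ + y 1 • L₁)) + ε ^ 2) ^ 2) (𝓝[>] 0)
      (𝓝 (Real.pi / (m * Real.sqrt ((L₀ ⨯₃ L₁) ⬝ᵥ (L₀ ⨯₃ L₁))))) ∧
    Tendsto (fun ε : ℝ => ∫ y in Qi ρ,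
      ε ^ 2 / (m * ((y 0 • L₀ + y 1 • L₁) ⬝ᵥ (y 0 • L₀ + y 1 • L₁)) + ε ^ 2) ^ 2) (𝓝[>] 0)
      (𝓝 (Real.pi / 2 / (m * Real.sqrt ((L₀ ⨯₃ L₁) ⬝ᵥ (L₀ ⨯₃ L₁)))))

/-- (DLM) the density of a plane piece. -/
def T_DLM : Prop :=
  ∀ (L₀ L₁ : V3) (η : ℝ), L₀ ⨯₃ L₁ ≠ 0 → 0 < η → ∃ δ : ℝ, 0 < δ ∧ δ < 1 ∧ ∀ ρ : ℝ, 0 < ρ →
    ∀ᶠ ε in 𝓝[>] (0 : ℝ), ∀ (X : E2 → V3) (w : E2 → ℝ) (A : Set E2) (j : ℝ),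
      ((A = Bx ρ ∧ j = Real.pi) ∨ (A = Qi ρ ∧ j = Real.pi / 2)) → ContinuousOn X A →
      ContinuousOn w A →
      (∀ y ∈ A, X y ⬝ᵥ X y ≤ (1 + δ) * ((y 0 • L₀ + y 1 • L₁) ⬝ᵥ (y 0 • L₀ + y 1 • L₁)) ∧
        (1 - δ) * Real.sqrt ((L₀ ⨯₃ L₁) ⬝ᵥ (L₀ ⨯₃ L₁)) ≤ w y ∧
        w y ≤ 2 * Real.sqrt ((L₀ ⨯₃ L₁) ⬝ᵥ (L₀ ⨯₃ L₁))) →
      j - η ≤ ∫ y in A, ε ^ 2 * (1 / (X y ⬝ᵥ X y + ε ^ 2)) ^ 2 * w y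

/-! ### pointwise algebra -/

/-- (AL1) the divergence of `(x - c) / (|x - c|² + e)`. -/
def T_AL1 : Prop :=
  ∀ (X0 X1 n n0 n1 : V3) (H : ℝ), Frm X0 X1 n n0 n1 H → ∀ (X : V3) (e φ : ℝ), 0 < e →
    φ = 1 / (X ⬝ᵥ X + e) →
    ∑ i : Fin 3, brk X0 X1 n
      ((n0 ⨯₃ (φ • X) + n ⨯₃ ((-(2 * φ ^ 2 * (X ⬝ᵥ X0))) • X + φ • X0)) i)
      ((n1 ⨯₃ (φ • X) + n ⨯₃ ((-(2 * φ ^ 2 * (X ⬝ᵥ X1))) • X + φ • X1)) i) (X0 i) (X1 i) =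
      2 * (φ * (X ⬝ᵥ n) + H / 2) ^ 2 + 2 * e * φ ^ 2 - H ^ 2 / 2

/-- (AL2) the flux and the area of the projection. -/
def T_AL2 : Prop :=
  ∀ (X0 X1 n n0 n1 : V3) (H : ℝ), Frm X0 X1 n n0 n1 H →
    ∑ i : Fin 3, brk X0 X1 n ((n0 ⨯₃ e3) i) ((n1 ⨯₃ e3) i) (X0 i) (X1 i) = 2 * H * n 2 ∧
    brk X0 X1 n (X0 0) (X1 0) (X0 1) (X1 1) = n 2

/-! ### the boundary -/

/-- (BPA) the boundary is a closed curve. -/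
def T_BPA : Prop := ∀ D : Dat, ∃ γ : ℝ → D.S, Bp D γ

/-- (BCH) parametrizations near boundary points. -/
def T_BCH : Prop :=
  ∀ (D : Dat) (p : D.S) (U : Set D.S), p ∈ D.bd → IsOpen U → p ∈ U →
    ∃ (a : ℝ) (ψ : E2 → D.S), Bch D a ψ ∧ ψ 0 = p ∧ ψ '' Qb a ⊆ U

/-- (CPB) supports in a half box. -/
def T_CPB : Prop :=
  ∀ (D : Dat) (a : ℝ) (ψ : E2 → D.S), Bch D a ψ → ∀ f : D.S → ℝ, tsupport f ⊆ ψ '' Qb a →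
    ∃ a' : ℝ, 0 < a' ∧ a' < a ∧ ∀ y ∈ Qb a, a' < y 0 ∨ a' < |y 1| → f (ψ y) = 0

/-- (LB1) the bracket in a half box. -/
def T_LB1 : Prop :=
  ∀ (D : Dat) (a : ℝ) (ψ : E2 → D.S), Bch D a ψ → ∃ κ : ℝ, (κ = 1 ∨ κ = -1) ∧
    ∀ f b : D.S → ℝ, D.Sm f → D.Sm b → tsupport f ⊆ ψ '' Qb a →
      ∫ p in D.int, br D.x D.N f b p ∂D.μ = κ * ∫ y in Qi a,
        (pd (f ∘ ψ) y 0 * pd (b ∘ ψ) y 1 - pd (f ∘ ψ) y 1 * pd (b ∘ ψ) y 0)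

/-- (LB2) Stokes' formula near a boundary point. -/
def T_LB2 : Prop :=
  ∀ (D : Dat) (γ : ℝ → D.S), Bp D γ → ∀ (a : ℝ) (ψ : E2 → D.S), Bch D a ψ →
    (∀ y ∈ Qb a, 0 < D.x (ψ y) ⬝ᵥ D.x (ψ 0)) → ∃ s : ℝ, (s = 1 ∨ s = -1) ∧
    ∀ (f : D.S → ℝ) (B : V3 → ℝ), D.Sm f → tsupport f ⊆ ψ '' Qb a → ContDiff ℝ ∞ B →
      ∫ p in D.int, br D.x D.N f (fun q => B (D.x q)) p ∂D.μ =
        s * ∫ θ in (0 : ℝ)..(2 * Real.pi), f (γ θ) * deriv (fun τ => B (cpt D.r τ)) θ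

/-- (POU) Stokes' formula with a variable orientation. -/
def T_POU : Prop :=
  ∀ (D : Dat) (γ : ℝ → D.S), Bp D γ → ∃ σ : ℝ → ℝ, Continuous σ ∧
    (∀ θ, σ (θ + 2 * Real.pi) = σ θ) ∧ (∀ θ, |σ θ| ≤ 1) ∧
    ∀ (f : D.S → ℝ) (B : V3 → ℝ), D.Sm f → ContDiff ℝ ∞ B →
      ∫ p in D.int, br D.x D.N f (fun q => B (D.x q)) p ∂D.μ =
        ∫ θ in (0 : ℝ)..(2 * Real.pi), σ θ * (f (γ θ) * deriv (fun τ => B (cpt D.r τ)) θ)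

/-- (SCO) Stokes' formula. -/
def T_SCO : Prop := ∀ (D : Dat) (γ : ℝ → D.S), Bp D γ → ∃ s : ℝ, GS D γ s

/-- (NRM) the normal on the boundary. -/
def T_NRM : Prop :=
  ∀ (D : Dat) (γ : ℝ → D.S), Bp D γ → Continuous (nr D γ) ∧ Continuous (nz D γ) ∧
    (∀ θ, nr D γ θ ^ 2 + nz D γ θ ^ 2 = 1) ∧
    ∀ θ, D.N (γ θ) 0 = nr D γ θ * Real.cos θ ∧ D.N (γ θ) 1 = nr D γ θ * Real.sin θ

/-! ### the integral identities -/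

/-- (IEP) the monotonicity identity. -/
def T_IEP : Prop :=
  ∀ (D : Dat) (γ : ℝ → D.S) (s : ℝ), Bp D γ → GS D γ s → ∀ (c : V3) (ε : ℝ), 0 < ε →
    2 * ∫ p in D.int, fe D c ε p ^ 2 ∂D.μ + 2 * ∫ p in D.int, ε ^ 2 * ph D c ε p ^ 2 ∂D.μ =
      D.H ^ 2 / 2 * ar D + s * ∫ θ in (0 : ℝ)..(2 * Real.pi), bt D γ c ε θ

/-- (FLU) the area of the projection and the flux. -/
def T_FLU : Prop :=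
  ∀ (D : Dat) (γ : ℝ → D.S) (s : ℝ), Bp D γ → GS D γ s →
    ∫ p in D.int, D.N p 2 ∂D.μ = s * (Real.pi * D.r ^ 2) ∧
    s * ((∫ θ in (0 : ℝ)..(2 * Real.pi), nr D γ θ) + 2 * Real.pi * D.H * D.r) = 0

/-- (SNZ) a bound for the boundary term. -/
def T_SNZ : Prop :=
  ∀ (D : Dat) (γ : ℝ → D.S) (s : ℝ), Bp D γ → GS D γ s →
    s * ∫ θ in (0 : ℝ)..(2 * Real.pi), nz D γ θ ≤
      2 * Real.pi * Real.sqrt (1 - D.r ^ 2 * D.H ^ 2)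

/-- (DIN) the density at interior points. -/
def T_DIN : Prop :=
  ∀ (D : Dat) (p : D.S) (U : Set D.S) (η : ℝ), p ∈ D.int → IsOpen U → p ∈ U → 0 < η →
    ∀ᶠ ε in 𝓝[>] (0 : ℝ), Real.pi - η ≤ ∫ q in D.int ∩ U, ε ^ 2 * ph D (D.x p) ε q ^ 2 ∂D.μ

/-- (DBD) the density at boundary points. -/
def T_DBD : Prop :=
  ∀ (D : Dat) (p : D.S) (U : Set D.S) (η : ℝ), p ∈ D.bd → IsOpen U → p ∈ U → 0 < η →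
    ∀ᶠ ε in 𝓝[>] (0 : ℝ),
      Real.pi / 2 - η ≤ ∫ q in D.int ∩ U, ε ^ 2 * ph D (D.x p) ε q ^ 2 ∂D.μ

/-- (DSM) the density of a point of the space. -/
def T_DSM : Prop :=
  ∀ (D : Dat) (c : V3) (F : Finset D.S) (η : ℝ), 0 < η → (∀ p ∈ F, D.x p = c) →
    (∀ p ∈ F, p ∈ D.int) →
    (∀ᶠ ε in 𝓝[>] (0 : ℝ),
      Real.pi * F.card - η ≤ ∫ q in D.int, ε ^ 2 * ph D c ε q ^ 2 ∂D.μ) ∧
    (c ∈ circ D.r → ∀ᶠ ε in 𝓝[>] (0 : ℝ),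
      Real.pi * F.card + Real.pi / 2 - η ≤ ∫ q in D.int, ε ^ 2 * ph D c ε q ^ 2 ∂D.μ)

/-- (INC) points which are not on the circle. -/
def T_INC : Prop :=
  ∀ (D : Dat) (c : V3) (F : Finset D.S), c ∉ circ D.r → (∀ p ∈ F, D.x p = c) →
    (∀ p ∈ F, p ∈ D.int) → 4 * Real.pi * F.card ≤ D.H ^ 2 * ar D + 4 * Real.pi

/-- (INB) points on the circle. -/
def T_INB : Prop :=
  ∀ (D : Dat) (γ : ℝ → D.S) (s : ℝ), Bp D γ → GS D γ s → ∀ (c : V3) (F : Finset D.S),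
    c ∈ circ D.r → (∀ p ∈ F, D.x p = c) → (∀ p ∈ F, p ∈ D.int) →
    4 * Real.pi * F.card + 2 * Real.pi ≤
      D.H ^ 2 * ar D + s * ∫ θ in (0 : ℝ)..(2 * Real.pi), nz D γ θ

/-- (EQL) the case of equality. -/
def T_EQL : Prop :=
  ∀ (D : Dat) (γ : ℝ → D.S) (s : ℝ), Bp D γ → GS D γ s →
    D.H ^ 2 * ar D + s * ∫ θ in (0 : ℝ)..(2 * Real.pi), nz D γ θ ≤ 2 * Real.pi →
    ∀ c ∈ circ D.r, Tendsto (fun ε : ℝ => ∫ p in D.int, fe D c ε p ^ 2 ∂D.μ) (𝓝[>] 0) (𝓝 0)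

/-- (EQF) the limit. -/
def T_EQF : Prop :=
  ∀ (D : Dat) (c : V3),
    Tendsto (fun ε : ℝ => ∫ p in D.int, fe D c ε p ^ 2 ∂D.μ) (𝓝[>] 0) (𝓝 0) →
    ∀ p, gz D c p = 0

/-- (UMC) the surface is totally umbilic. -/
def T_UMC : Prop :=
  ∀ D : Dat, (∀ c ∈ circ D.r, ∀ p, gz D c p = 0) →
    ∃ z : ℝ, z ^ 2 = 1 - D.r ^ 2 * D.H ^ 2 ∧ ∀ p, D.N p + D.H • D.x p = ![0, 0, z]

/-- (SML) the cap is small. -/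
def T_SML : Prop :=
  ∀ (D : Dat) (γ : ℝ → D.S) (s z : ℝ), Bp D γ → GS D γ s → D.H ≠ 0 →
    z ^ 2 = 1 - D.r ^ 2 * D.H ^ 2 → (∀ p, D.N p + D.H • D.x p = ![0, 0, z]) →
    D.H ^ 2 * ar D ≤ 2 * Real.pi * (1 - |z|) →
    2 * Real.pi ≤ D.H ^ 2 * ar D + s * ∫ θ in (0 : ℝ)..(2 * Real.pi), nz D γ θ →
    ∀ σ : ℝ, (σ = 1 ∨ σ = -1) → (∀ p, 0 ≤ σ * D.x p 2) → σ * (z / D.H) ≤ 0

/-- (CAP) the surface is a small cap. -/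
def T_CAP : Prop :=
  ∀ (D : Dat), D.H ≠ 0 →
    D.H ^ 2 * ar D ≤ 2 * Real.pi * (1 - Real.sqrt (1 - D.r ^ 2 * D.H ^ 2)) →
    Injective D.x ∧ ∃ c σ : ℝ, (σ = 1 ∨ σ = -1) ∧ σ * c ≤ 0 ∧ range D.x = Kca c (1 / |D.H|) σ

/-- (PRE) the number of preimages. -/
def T_PRE : Prop :=
  ∀ (D : Dat) (y : V3) (F : Finset D.S), (∀ p ∈ F, D.x p = y) →
    4 * Real.pi * F.card ≤ D.H ^ 2 * ar D + 4 * Real.pi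

/-- (FIN) the theorem. -/
def T_FIN : Prop :=
  ∀ D : Dat,
    2 * Real.pi * (1 - Real.sqrt (1 - D.r ^ 2 * D.H ^ 2)) ≤ D.H ^ 2 * ar D ∧
    (D.H ≠ 0 → D.H ^ 2 * ar D ≤ 2 * Real.pi * (1 - Real.sqrt (1 - D.r ^ 2 * D.H ^ 2)) →
      Injective D.x ∧ ∃ c σ : ℝ, (σ = 1 ∨ σ = -1) ∧ σ * c ≤ 0 ∧
        range D.x = Kca c (1 / |D.H|) σ) ∧
    (∀ (y : V3) (F : Finset D.S), (∀ p ∈ F, D.x p = y) →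
      4 * Real.pi * F.card ≤ D.H ^ 2 * ar D + 4 * Real.pi) ∧
    (∀ y ∈ circ D.r, ∀ F : Finset D.S, (∀ p ∈ F, D.x p = y) → (∀ p ∈ F, p ∈ D.int) →
      2 * Real.pi * (2 * F.card + 1 - Real.sqrt (1 - D.r ^ 2 * D.H ^ 2)) ≤ D.H ^ 2 * ar D)

end Pool.Agent.H61.AR
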